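import Pool.Agent.U307.RAD.Stm3

/-!
Project RAD, package FT: the Fourier transform of `(y - y0) gg`.
-/

set_option autoImplicit false

open MeasureTheory Filter Topology Set

namespace Pool.Agent.U643.RAD

open Pool.Agent.U307.RAD

theorem exp_int (r : ℂ) (hr : 0 < r.re) :
    IntegrableOn (fun y : ℝ => Complex.exp (-(r * y))) (Ioi 0) ∧
    ∫ y in Ioi (0 : ℝ), Complex.exp (-(r * y)) = 1 / r ∧
    IntegrableOn (fun y : ℝ => (y : ℂ) * Complex.exp (-(r * y))) (Ioi 0) ∧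
    ∫ y in Ioi (0 : ℝ), (y : ℂ) * Complex.exp (-(r * y)) = 1 / r ^ 2 := by
  have hr0 : r ≠ 0 := fun h => by
    rw [h] at hr
    simp at hr
  have hrn : 0 < ‖r‖ := norm_pos_iff.2 hr0
  have hneg : (-r).re < 0 := by
    rw [Complex.neg_re]
    linarith
  have e0 : ∀ y : ℝ, Complex.exp (-r * y) = Complex.exp (-(r * y)) := fun y => by
    rw [neg_mul]
  have a1 := integrableOn_exp_mul_complex_Ioi hneg 0
  have a2 := integral_exp_mul_complex_Ioi hneg 0
  simp only [e0] at a1 a2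
  have a3 : ∫ y in Ioi (0 : ℝ), Complex.exp (-(r * y)) = 1 / r := by
    rw [a2]
    simp [neg_div_neg_eq]
  -- the norm
  have hn : ∀ y : ℝ, ‖Complex.exp (-(r * y))‖ = Real.exp (-r.re * y) := by
    intro y
    rw [Complex.norm_exp]
    congr 1
    simp
  have b1 : IntegrableOn (fun y : ℝ => y * Real.exp (-r.re * y)) (Ioi 0) := by
    have h := integrableOn_rpow_mul_exp_neg_mul_rpow (p := 1) (s := 1) (b := r.re) (by norm_num)
      (by norm_num) hr
    simpa using h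
  have b2 : IntegrableOn (fun y : ℝ => (y : ℂ) * Complex.exp (-(r * y))) (Ioi 0) := by
    refine Integrable.mono b1 (Continuous.aestronglyMeasurable (by fun_prop)) ?_
    refine Filter.Eventually.of_forall fun y => ?_
    rw [norm_mul, hn, norm_mul, Complex.norm_real, Real.norm_eq_abs (Real.exp _),
      abs_of_pos (Real.exp_pos _)]
  refine ⟨a1, a3, b2, ?_⟩
  have hd : ∀ y ∈ Ici (0 : ℝ), HasDerivAt
      (fun y : ℝ => -((y : ℂ) / r + 1 / r ^ 2) * Complex.exp (-(r * y)))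
      ((y : ℂ) * Complex.exp (-(r * y))) y := by
    intro y _
    have c0 : HasDerivAt (fun y : ℝ => (y : ℂ)) 1 y := Complex.ofRealCLM.hasDerivAt
    have c1 : HasDerivAt (fun y : ℝ => -((y : ℂ) / r + 1 / r ^ 2)) (-(1 / r)) y :=
      ((c0.div_const r).add_const _).fun_neg
    have c2 : HasDerivAt (fun y : ℝ => -(r * (y : ℂ))) (-(r * 1)) y := (c0.const_mul r).fun_neg
    have c3 := c1.fun_mul c2.cexp
    refine c3.congr_deriv ?_
    field_simp
    ring
  have ht : Tendsto (fun y : ℝ => -((y : ℂ) / r + 1 / r ^ 2) * Complex.exp (-(r * y))) atTop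
      (𝓝 0) := by
    rw [tendsto_zero_iff_norm_tendsto_zero]
    have d1 : Tendsto (fun y : ℝ => y * Real.exp (-r.re * y)) atTop (𝓝 0) := by
      have := tendsto_rpow_mul_exp_neg_mul_atTop_nhds_zero 1 r.re hr
      simpa using this
    have d2 : Tendsto (fun y : ℝ => Real.exp (-r.re * y)) atTop (𝓝 0) := by
      have := tendsto_rpow_mul_exp_neg_mul_atTop_nhds_zero 0 r.re hr
      simpa using this
    have d3 : Tendsto (fun y : ℝ => (1 / ‖r‖) * (y * Real.exp (-r.re * y)) +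
        (1 / ‖r‖ ^ 2) * Real.exp (-r.re * y)) atTop (𝓝 0) := by
      have := (d1.const_mul (1 / ‖r‖)).add (d2.const_mul (1 / ‖r‖ ^ 2))
      simpa using this
    refine squeeze_zero' (Filter.Eventually.of_forall fun y => norm_nonneg _) ?_ d3
    filter_upwards [Filter.eventually_ge_atTop (0 : ℝ)] with y hy
    rw [norm_mul, norm_neg, hn]
    have d4 : ‖(y : ℂ) / r + 1 / r ^ 2‖ ≤ y / ‖r‖ + 1 / ‖r‖ ^ 2 := by
      refine (norm_add_le _ _).trans ?_
      rw [norm_div, norm_div, norm_one, norm_pow, Complex.norm_real, Real.norm_eq_abs,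
        abs_of_nonneg hy]
    calc ‖(y : ℂ) / r + 1 / r ^ 2‖ * Real.exp (-r.re * y)
        ≤ (y / ‖r‖ + 1 / ‖r‖ ^ 2) * Real.exp (-r.re * y) :=
          mul_le_mul_of_nonneg_right d4 (Real.exp_pos _).le
      _ = _ := by ring
  have hmain := integral_Ioi_of_hasDerivAt_of_tendsto' hd b2 ht
  rw [hmain]
  simp

theorem hd_prod {ι : Type} (s : Finset ι) (c : ι → ℂ) (z : ℂ) (h : ∀ i ∈ s, z + c i ≠ 0) :
    HasDerivAt (fun w : ℂ => ∏ i ∈ s, (w + c i))
      ((∏ i ∈ s, (z + c i)) * ∑ i ∈ s, 1 / (z + c i)) z := by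
  classical
  induction s using Finset.induction_on with
  | empty => simpa using hasDerivAt_const z (1 : ℂ)
  | insert a s ha ih =>
    have h1 := ih (fun i hi => h i (Finset.mem_insert_of_mem hi))
    have h2 : HasDerivAt (fun w : ℂ => w + c a) 1 z := (hasDerivAt_id z).add_const _
    have h3 := h2.fun_mul h1
    have h4 := h a (Finset.mem_insert_self _ _)
    simp only [Finset.prod_insert ha, Finset.sum_insert ha]
    refine h3.congr_deriv ?_
    field_simp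

/-- the function `log (1 + t² / x²)` decreases by at least its derivative -/
theorem log_step {t x : ℝ} (hx : 1 < x) :
    2 * t ^ 2 / (x * (x ^ 2 + t ^ 2)) ≤
      Real.log (1 + t ^ 2 / (x - 1) ^ 2) - Real.log (1 + t ^ 2 / x ^ 2) := by
  have hd : ∀ y : ℝ, 0 < y → HasDerivAt (fun y : ℝ => Real.log (1 + t ^ 2 / y ^ 2))
      (-(2 * t ^ 2 / (y * (y ^ 2 + t ^ 2)))) y := by
    intro y hy
    have h1 : HasDerivAt (fun y : ℝ => 1 + t ^ 2 / y ^ 2) (-(t ^ 2 * (2 * y)) / (y ^ 2) ^ 2) y := by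
      have h2 : HasDerivAt (fun y : ℝ => y ^ 2) (2 * y) y := by
        simpa using hasDerivAt_pow 2 y
      have h3 := ((hasDerivAt_const y (t ^ 2)).fun_div h2 (by positivity)).const_add 1
      refine h3.congr_deriv ?_
      ring
    have h4 : (1 + t ^ 2 / y ^ 2) ≠ 0 := by positivity
    refine (h1.log h4).congr_deriv ?_
    field_simp
  obtain ⟨c, hc, hce⟩ := exists_hasDerivAt_eq_slope
    (fun y : ℝ => Real.log (1 + t ^ 2 / y ^ 2)) (fun y => -(2 * t ^ 2 / (y * (y ^ 2 + t ^ 2))))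
    (show x - 1 < x by linarith)
    (fun y hy => (hd y (by linarith [hy.1])).continuousAt.continuousWithinAt)
    (fun y hy => hd y (by linarith [hy.1]))
  have hc0 : 0 < c := by linarith [hc.1]
  have hcx : c < x := hc.2
  rw [show x - (x - 1) = 1 by ring, div_one] at hce
  have h5 : 2 * t ^ 2 / (x * (x ^ 2 + t ^ 2)) ≤ 2 * t ^ 2 / (c * (c ^ 2 + t ^ 2)) := by
    apply div_le_div_of_nonneg_left (by positivity) (by positivity)
    have h6 : c ^ 2 ≤ x ^ 2 := pow_le_pow_left₀ hc0.le hcx.le 2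
    exact mul_le_mul hcx.le (by linarith) (by positivity) (by linarith)
  linarith

/-- the sum `y0 - D` -/
theorem y0_sub (n l : ℕ) (hl : 1 ≤ l) (t : ℝ) :
    0 ≤ y0 n l - ∑ i ∈ Finset.range n, 2 * ((l : ℝ) / 2 + 1 + i) / (((l : ℝ) / 2 + 1 + i) ^ 2 + t ^ 2) ∧
    y0 n l - ∑ i ∈ Finset.range n, 2 * ((l : ℝ) / 2 + 1 + i) / (((l : ℝ) / 2 + 1 + i) ^ 2 + t ^ 2) ≤
      Real.log (1 + t ^ 2 / ((l : ℝ) / 2) ^ 2) := by
  have hl' : (1 : ℝ) ≤ l := by exact_mod_cast hl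
  have e1 : y0 n l - ∑ i ∈ Finset.range n, 2 * ((l : ℝ) / 2 + 1 + i) /
      (((l : ℝ) / 2 + 1 + i) ^ 2 + t ^ 2) = ∑ i ∈ Finset.range n,
      2 * t ^ 2 / (((l : ℝ) / 2 + 1 + i) * (((l : ℝ) / 2 + 1 + i) ^ 2 + t ^ 2)) := by
    unfold y0
    rw [← Finset.sum_sub_distrib]
    refine Finset.sum_congr rfl fun i _ => ?_
    have hx : 0 < (l : ℝ) / 2 + 1 + i := by positivity
    generalize (l : ℝ) / 2 + 1 + i = x at hx
    field_simp
    ring
  rw [e1]
  constructor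
  · exact Finset.sum_nonneg fun i _ => by positivity
  · have h1 : ∀ i ∈ Finset.range n,
        2 * t ^ 2 / (((l : ℝ) / 2 + 1 + i) * (((l : ℝ) / 2 + 1 + i) ^ 2 + t ^ 2)) ≤
        (fun i : ℕ => Real.log (1 + t ^ 2 / ((l : ℝ) / 2 + i) ^ 2)) i -
        (fun i : ℕ => Real.log (1 + t ^ 2 / ((l : ℝ) / 2 + i) ^ 2)) (i + 1) := by
      intro i _
      have h2 := log_step (t := t) (x := (l : ℝ) / 2 + 1 + i) (by
        have : (0 : ℝ) ≤ i := Nat.cast_nonneg i
        linarith)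
      have e2 : (l : ℝ) / 2 + 1 + i - 1 = (l : ℝ) / 2 + i := by ring
      have e3 : (l : ℝ) / 2 + ((i + 1 : ℕ) : ℝ) = (l : ℝ) / 2 + 1 + i := by
        push_cast
        ring
      rw [e2] at h2
      simp only [e3]
      exact h2
    refine (Finset.sum_le_sum h1).trans ?_
    rw [Finset.sum_range_sub']
    have h3 : 0 ≤ Real.log (1 + t ^ 2 / ((l : ℝ) / 2 + n) ^ 2) := by
      apply Real.log_nonneg
      have : 0 ≤ t ^ 2 / ((l : ℝ) / 2 + n) ^ 2 := by positivity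
      linarith
    simp only [Nat.cast_zero, add_zero]
    linarith

theorem norm_sub_add (x t : ℝ) : ‖Complex.I * t - x‖ = ‖Complex.I * t + x‖ := by
  have h : Complex.I * t - x = -((starRingEnd ℂ) (Complex.I * t + x)) := by
    apply Complex.ext <;> simp
  rw [h, norm_neg, Complex.norm_conj]

theorem norm_sq_add (x t : ℝ) : ‖Complex.I * t + x‖ ^ 2 = x ^ 2 + t ^ 2 := by
  rw [← Complex.normSq_eq_norm_sq, Complex.normSq_apply]
  simp
  ring

/-- the transform -/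
theorem transf (n l : ℕ) (hl : 1 ≤ l) (t : ℝ) :
    ∫ y in Ioi (0 : ℝ), (((y - y0 n l) * gg n l y : ℝ) : ℂ) *
      Complex.exp (-(Complex.I * t * y)) =
    ∑ i ∈ Finset.range (n + 1), (aa n l i : ℂ) / (Complex.I * t + (l : ℂ) / 2 + i) ^ 2 -
      (y0 n l : ℂ) * ∑ i ∈ Finset.range (n + 1), (aa n l i : ℂ) / (Complex.I * t + (l : ℂ) / 2 + i) := by
  have hl' : (1 : ℝ) ≤ l := by exact_mod_cast hl
  have hre : ∀ i : ℕ, 0 < (Complex.I * t + (l : ℂ) / 2 + i).re := by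
    intro i
    have : (Complex.I * t + (l : ℂ) / 2 + i).re = (l : ℝ) / 2 + i := by
      simp
    rw [this]
    positivity
  have e1 : ∀ y : ℝ, (((y - y0 n l) * gg n l y : ℝ) : ℂ) * Complex.exp (-(Complex.I * t * y)) =
      ∑ i ∈ Finset.range (n + 1), (aa n l i : ℂ) *
        ((y : ℂ) * Complex.exp (-((Complex.I * t + (l : ℂ) / 2 + i) * y)) -
          (y0 n l : ℂ) * Complex.exp (-((Complex.I * t + (l : ℂ) / 2 + i) * y))) := by
    intro y
    unfold gg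
    push_cast
    rw [Finset.mul_sum, Finset.sum_mul]
    refine Finset.sum_congr rfl fun i _ => ?_
    have e2 : Complex.exp (-((Complex.I * t + (l : ℂ) / 2 + i) * y)) =
        Complex.exp (-(((l : ℂ) / 2 + i) * y)) * Complex.exp (-(Complex.I * t * y)) := by
      rw [← Complex.exp_add]
      congr 1
      ring
    rw [e2]
    ring
  simp only [e1]
  rw [integral_finsetSum]
  · rw [Finset.mul_sum, ← Finset.sum_sub_distrib]
    refine Finset.sum_congr rfl fun i _ => ?_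
    obtain ⟨i1, i2, i3, i4⟩ := exp_int _ (hre i)
    rw [integral_const_mul, integral_sub i3 (i1.const_mul _), integral_const_mul, i2, i4]
    ring
  · intro i _
    obtain ⟨i1, i2, i3, i4⟩ := exp_int _ (hre i)
    exact (Integrable.sub i3 (i1.const_mul _)).const_mul _

/-- Package FT. -/
theorem t_FT : S_TR → S_IGR → S_FT := by
  intro hTR _ n l t hl
  have hl' : (1 : ℝ) ≤ l := by exact_mod_cast hl
  rw [transf n l hl t]
  obtain ⟨z, hz⟩ : ∃ z : ℂ, z = Complex.I * t := ⟨_, rfl⟩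
  have hzre : z.re = 0 := by rw [hz]; simp
  rw [← hz]
  have hne : ∀ w : ℂ, -((l : ℝ) / 2) < w.re → ∀ i : ℕ, w + (l : ℂ) / 2 + i ≠ 0 := by
    intro w hw i h
    have h1 : (w + (l : ℂ) / 2 + i).re = w.re + (l : ℝ) / 2 + i := by simp
    rw [h] at h1
    have : (0 : ℝ) ≤ i := Nat.cast_nonneg i
    simp at h1
    linarith
  have hz1 : -((l : ℝ) / 2) < z.re := by rw [hzre]; linarith
  have hne2 : ∀ i : ℕ, z - (l : ℂ) / 2 - 1 - i ≠ 0 := by
    intro i h
    have h1 : (z - (l : ℂ) / 2 - 1 - i).re = z.re - (l : ℝ) / 2 - 1 - i := by simp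
    rw [h] at h1
    have : (0 : ℝ) ≤ i := Nat.cast_nonneg i
    simp at h1
    linarith
  -- the two forms of the function
  have hTRz := hTR n l z fun i _ => hne z hz1 i
  obtain ⟨Nz, hNz⟩ : ∃ N : ℂ, N = ∏ i ∈ Finset.range n, (z - (l : ℂ) / 2 - 1 - i) := ⟨_, rfl⟩
  obtain ⟨Pz, hPz⟩ : ∃ P : ℂ, P = ∏ i ∈ Finset.range (n + 1), (z + (l : ℂ) / 2 + i) := ⟨_, rfl⟩
  have hP0 : Pz ≠ 0 := by
    rw [hPz]
    exact Finset.prod_ne_zero_iff.2 fun i _ => hne z hz1 i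
  have hN : HasDerivAt (fun w : ℂ => ∏ i ∈ Finset.range n, (w - (l : ℂ) / 2 - 1 - i))
      (Nz * ∑ i ∈ Finset.range n, 1 / (z - (l : ℂ) / 2 - 1 - i)) z := by
    have h := hd_prod (Finset.range n) (fun i : ℕ => -((l : ℂ) / 2) - 1 - i) z (fun i _ => by
      have := hne2 i
      intro h0
      apply this
      rw [← h0]
      ring)
    have e1 : ∀ w : ℂ, ∀ i : ℕ, w + (-((l : ℂ) / 2) - 1 - i) = w - (l : ℂ) / 2 - 1 - i := by
      intro w i
      ring
    simp only [e1] at h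
    rw [hNz]
    exact h
  have hP : HasDerivAt (fun w : ℂ => ∏ i ∈ Finset.range (n + 1), (w + (l : ℂ) / 2 + i))
      (Pz * ∑ i ∈ Finset.range (n + 1), 1 / (z + (l : ℂ) / 2 + i)) z := by
    have h := hd_prod (Finset.range (n + 1)) (fun i : ℕ => (l : ℂ) / 2 + i) z (fun i _ => by
      have := hne z hz1 i
      intro h0
      apply this
      rw [← h0]
      ring)
    have e1 : ∀ w : ℂ, ∀ i : ℕ, w + ((l : ℂ) / 2 + i) = w + (l : ℂ) / 2 + i := by
      intro w i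
      ring
    simp only [e1] at h
    rw [hPz]
    exact h
  have hR := hN.fun_div hP (by rw [← hPz]; exact hP0)
  have hS : HasDerivAt (fun w : ℂ => ∑ i ∈ Finset.range (n + 1), (aa n l i : ℂ) / (w + (l : ℂ) / 2 + i))
      (∑ i ∈ Finset.range (n + 1), -((aa n l i : ℂ) / (z + (l : ℂ) / 2 + i) ^ 2)) z := by
    refine HasDerivAt.fun_sum fun i _ => ?_
    have h1 : HasDerivAt (fun w : ℂ => w + (l : ℂ) / 2 + i) 1 z :=
      ((hasDerivAt_id z).add_const _).add_const _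
    have h2 := (hasDerivAt_const z (aa n l i : ℂ)).fun_div h1 (hne z hz1 i)
    refine h2.congr_deriv ?_
    ring
  have hev : (fun w : ℂ => ∑ i ∈ Finset.range (n + 1), (aa n l i : ℂ) / (w + (l : ℂ) / 2 + i)) =ᶠ[𝓝 z]
      fun w => (∏ i ∈ Finset.range n, (w - (l : ℂ) / 2 - 1 - i)) /
        ∏ i ∈ Finset.range (n + 1), (w + (l : ℂ) / 2 + i) := by
    have hop : IsOpen {w : ℂ | -((l : ℝ) / 2) < w.re} :=
      isOpen_lt continuous_const Complex.continuous_re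
    filter_upwards [hop.mem_nhds hz1] with w hw
    exact hTR n l w fun i _ => hne w hw i
  have huniq := (hR.congr_of_eventuallyEq hev).unique hS
  rw [← hNz, ← hPz] at huniq
  rw [hTRz, ← hNz, ← hPz]
  have hS2 : ∑ i ∈ Finset.range (n + 1), (aa n l i : ℂ) / (z + (l : ℂ) / 2 + i) ^ 2 =
      Nz / Pz * (∑ i ∈ Finset.range (n + 1), 1 / (z + (l : ℂ) / 2 + i) -
        ∑ i ∈ Finset.range n, 1 / (z - (l : ℂ) / 2 - 1 - i)) := by
    rw [Finset.sum_neg_distrib] at huniq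
    have h1 := congrArg (fun a : ℂ => -a) huniq
    simp only [neg_neg] at h1
    rw [← h1]
    field_simp
    ring
  rw [hS2]
  obtain ⟨D, hD⟩ : ∃ D : ℝ, D = ∑ i ∈ Finset.range n, 2 * ((l : ℝ) / 2 + 1 + i) /
    (((l : ℝ) / 2 + 1 + i) ^ 2 + t ^ 2) := ⟨_, rfl⟩
  have hsum : ∑ i ∈ Finset.range (n + 1), 1 / (z + (l : ℂ) / 2 + i) -
        ∑ i ∈ Finset.range n, 1 / (z - (l : ℂ) / 2 - 1 - i) = 1 / (z + (l : ℂ) / 2) + (D : ℂ) := by
    rw [Finset.sum_range_succ', Nat.cast_zero, add_zero, hD]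
    have e2 : ∑ i ∈ Finset.range n, 1 / (z + (l : ℂ) / 2 + ((i + 1 : ℕ) : ℂ)) -
        ∑ i ∈ Finset.range n, 1 / (z - (l : ℂ) / 2 - 1 - i) = ((∑ i ∈ Finset.range n,
          2 * ((l : ℝ) / 2 + 1 + i) / (((l : ℝ) / 2 + 1 + i) ^ 2 + t ^ 2) : ℝ) : ℂ) := by
      rw [← Finset.sum_sub_distrib, Complex.ofReal_sum]
      refine Finset.sum_congr rfl fun i _ => ?_
      have h3 := hne z hz1 (i + 1)
      have h4 := hne2 i
      have h5 : ((((l : ℝ) / 2 + 1 + i) ^ 2 + t ^ 2 : ℝ) : ℂ) =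
          -((z + (l : ℂ) / 2 + ((i + 1 : ℕ) : ℂ)) * (z - (l : ℂ) / 2 - 1 - i)) := by
        rw [hz]
        push_cast
        ring_nf
        rw [Complex.I_sq]
        ring
      rw [Complex.ofReal_div, h5, div_sub_div _ _ h3 h4, div_neg, ← neg_div]
      congr 1
      push_cast
      ring
    rw [← e2]
    ring
  rw [hsum]
  have efin : Nz / Pz * (1 / (z + (l : ℂ) / 2) + (D : ℂ)) - (y0 n l : ℂ) * (Nz / Pz) =
      Nz / Pz * (1 / (z + (l : ℂ) / 2) + ((D - y0 n l : ℝ) : ℂ)) := by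
    push_cast
    ring
  rw [efin, norm_mul, mul_pow]
  -- the norm of the Blaschke product
  have hk : ‖z + (l : ℂ) / 2‖ ^ 2 = ((l : ℝ) / 2) ^ 2 + t ^ 2 := by
    have := norm_sq_add ((l : ℝ) / 2) t
    rw [hz]
    push_cast at this
    exact this
  have hk0 : 0 < ((l : ℝ) / 2) ^ 2 + t ^ 2 := by positivity
  have hBl : ‖Nz / Pz‖ ^ 2 = 1 / (((l : ℝ) / 2) ^ 2 + t ^ 2) := by
    have h6 : ‖Pz‖ = ‖Nz‖ * ‖z + (l : ℂ) / 2‖ := by
      rw [hPz, hNz, Finset.prod_range_succ', norm_mul, Nat.cast_zero, add_zero, norm_prod, norm_prod]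
      congr 1
      refine Finset.prod_congr rfl fun i _ => ?_
      have h7 := norm_sub_add ((l : ℝ) / 2 + 1 + i) t
      rw [← hz] at h7
      have e3 : z + (l : ℂ) / 2 + ((i + 1 : ℕ) : ℂ) = z + (((l : ℝ) / 2 + 1 + i : ℝ) : ℂ) := by
        push_cast
        ring
      have e4 : z - (l : ℂ) / 2 - 1 - i = z - (((l : ℝ) / 2 + 1 + i : ℝ) : ℂ) := by
        push_cast
        ring
      rw [e3, e4, h7]
    have hN0 : Nz ≠ 0 := by
      rw [hNz]
      exact Finset.prod_ne_zero_iff.2 fun i _ => hne2 i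
    have h8 : 0 < ‖Nz‖ := norm_pos_iff.2 hN0
    rw [norm_div, h6, ← hk]
    field_simp
  rw [hBl]
  obtain ⟨hy1, hy2⟩ := y0_sub n l hl t
  rw [← hD] at hy1 hy2
  have h9 : ‖1 / (z + (l : ℂ) / 2) + ((D - y0 n l : ℝ) : ℂ)‖ ^ 2 ≤
      2 * Real.log (1 + t ^ 2 / ((l : ℝ) / 2) ^ 2) ^ 2 + 2 / (((l : ℝ) / 2) ^ 2 + t ^ 2) := by
    have h10 := norm_add_le (1 / (z + (l : ℂ) / 2)) ((D - y0 n l : ℝ) : ℂ)
    have h11 : ‖1 / (z + (l : ℂ) / 2)‖ ^ 2 = 1 / (((l : ℝ) / 2) ^ 2 + t ^ 2) := by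
      rw [norm_div, norm_one, div_pow, one_pow, hk]
    have h12 : ‖((D - y0 n l : ℝ) : ℂ)‖ ^ 2 ≤ Real.log (1 + t ^ 2 / ((l : ℝ) / 2) ^ 2) ^ 2 := by
      rw [Complex.norm_real, Real.norm_eq_abs, sq_abs]
      have : (D - y0 n l) ^ 2 = (y0 n l - D) ^ 2 := by ring
      rw [this]
      exact pow_le_pow_left₀ hy1 hy2 2
    have h13 : ‖1 / (z + (l : ℂ) / 2) + ((D - y0 n l : ℝ) : ℂ)‖ ^ 2 ≤
        2 * ‖1 / (z + (l : ℂ) / 2)‖ ^ 2 + 2 * ‖((D - y0 n l : ℝ) : ℂ)‖ ^ 2 := by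
      refine (pow_le_pow_left₀ (norm_nonneg _) h10 2).trans ?_
      nlinarith [sq_nonneg (‖1 / (z + (l : ℂ) / 2)‖ - ‖((D - y0 n l : ℝ) : ℂ)‖)]
    rw [h11] at h13
    have h14 : 2 / (((l : ℝ) / 2) ^ 2 + t ^ 2) = 2 * (1 / (((l : ℝ) / 2) ^ 2 + t ^ 2)) := by ring
    rw [h14]
    linarith
  unfold ww
  rw [one_div, inv_mul_eq_div]
  exact div_le_div_of_nonneg_right h9 hk0.le

end Pool.Agent.U643.RAD
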